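import Pool.Agent.H38.ER.Defs

/-!
Constrained matrix invertibility over the reals.
-/

namespace Pool.Agent.H38.Cmi

/-- `A` is an `n × n` array of symbols (`false` stands for `0`, `true` for `*`). -/
def Sq (n : ℕ) (A : List (List Bool)) : Prop := A.length = n ∧ ∀ r ∈ A, r.length = n

/-- The real matrix `M` vanishes wherever the pattern `A` has a `0`. -/
def Fits {n : ℕ} (A : List (List Bool)) (M : Matrix (Fin n) (Fin n) ℝ) : Prop :=
  ∀ i j : Fin n, (A.getD i []).getD j true = false → M i j = 0

/-- An instance: a size `n` and two `n × n` zero patterns. -/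
def Inst (p : ℕ × List (List Bool) × List (List Bool)) : Prop := Sq p.1 p.2.1 ∧ Sq p.1 p.2.2

/-- Some real matrices fitting the two patterns have the identity matrix as their product. -/
def Invertible (p : ℕ × List (List Bool) × List (List Bool)) : Prop :=
  ∃ M N : Matrix (Fin p.1) (Fin p.1) ℝ, Fits p.2.1 M ∧ Fits p.2.2 N ∧ M * N = 1

end Pool.Agent.H38.Cmi
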