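import Pool.Agent.H38.Hyp.Red
import Pool.Agent.H38.Cmi.Defs

/-!
Rank three matrices with unit diagonal and prescribed zeros; constrained matrix invertibility.
-/

namespace Pool.Agent.H38.Cmi

open Pool.Agent.H38.NP Pool.Agent.H38.ER Pool.Agent.H38.Hyp

def BI (p : ℕ × List (ℕ × ℕ)) : Prop := ∃ P L : ℕ → V3,
  (∀ k < p.1, ip (P k) (L k) = 1) ∧ ∀ e ∈ p.2, ip (P e.1) (L e.2) = 0

def ix (n t i j : ℕ) : ℕ := 6 * (n * i + j) + t

def zs (p : ℕ × List (ℕ × ℕ)) : List (ℕ × ℕ) :=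
  ((List.range p.1).flatMap fun i => (List.range p.1).flatMap fun j =>
    [(ix p.1 2 i j, ix p.1 0 i i), (ix p.1 2 i j, ix p.1 1 i i), (ix p.1 3 i i, ix p.1 5 i j),
      (ix p.1 4 i i, ix p.1 5 i j), (ix p.1 0 i i, ix p.1 1 i i), (ix p.1 4 i i, ix p.1 3 i i)]) ++
  ((List.range p.1).flatMap fun i => ((List.range p.1).filter fun j => j != i).flatMap fun j =>
    [(ix p.1 2 j j, ix p.1 2 i j), (ix p.1 5 i j, ix p.1 5 j j)]) ++
  p.2.map fun e => (ix p.1 2 e.1 e.1, ix p.1 5 e.2 e.2)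

theorem ix_lt {n t i j} (ht : t < 6) (hi : i < n) (hj : j < n) : ix n t i j < 6 * (n * n) := by
  have : n * i + n ≤ n * n := by nlinarith
  unfold ix; omega

theorem ex_fr (v : V3) : ∃ x : V3 × V3 × V3 × V3, ip x.1 x.2.1 = 1 ∧ ip x.2.2.1 x.2.2.2 = 1 ∧
    ip x.1 x.2.2.2 = 0 ∧ ip v x.2.1 = 0 ∧ ip v x.2.2.2 = 0 := by
  by_cases h1 : v.1 = 0
  · by_cases h2 : v.2.1 = 0
    · exact ⟨((1, 0, 0), (1, 0, 0), (0, 1, 0), (0, 1, 0)), by simp [ip, h1, h2]⟩
    · exact ⟨((1, 0, 0), (1, 0, 0), (0, 0, 1), (0, -v.2.2 / v.2.1, 1)), by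
        simp [ip, h1]; field_simp; ring⟩
  · exact ⟨((0, 1, 0), (-v.2.1 / v.1, 1, 0), (0, 0, 1), (-v.2.2 / v.1, 0, 1)), by
      simp [ip]; constructor <;> field_simp <;> ring⟩

theorem ex_sep {u v : V3} {c : Prop} (hu : u ≠ 0) (h : c → NP u v) :
    ∃ m, ip u m = 1 ∧ (c → ip v m = 0) := by
  by_cases k : c
  · have := (ip_pos (cr_ne.2 (h k))).ne'
    refine ⟨(1 / ip (cr u v) (cr u v)) • cr v (cr u v), ?_, fun _ => ?_⟩ <;> rw [ip_smul]
    · rw [show ip u (cr v (cr u v)) = ip (cr u v) (cr u v) by simp only [ip, cr]; ring]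
      field_simp
    · rw [show ip v (cr v (cr u v)) = 0 by simp only [ip, cr]; ring, mul_zero]
  · have := (ip_pos hu).ne'
    exact ⟨(1 / ip u u) • u, by rw [ip_smul]; field_simp, fun h => absurd h k⟩

theorem sep {a b r u u' m v : V3} (h1 : ip r a = 1) (h2 : ip r b = 0) (hb : b ≠ 0)
    (a1 : ip u a = 0) (a2 : ip u b = 0) (b1 : ip u' a = 0) (b2 : ip u' b = 0) (hu : u ≠ 0)
    (hm : ip u' m = 1) (hv : v ≠ 0) (e : ip v m = 0) : NP u v := by
  obtain ⟨c, rfl⟩ := par (np_ip (by rw [h1]; exact one_ne_zero) h2 hb) hu b1 b2 a1 a2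
  refine np_ip (n := m) (fun k => ?_) (by rw [ip_comm, e]) hv
  rw [smul_ip, ip_comm, k] at hm; simp at hm

theorem ne1 {u v : V3} (h : ip u v = 1) : u ≠ 0 ∧ v ≠ 0 := by
  constructor <;> rintro rfl <;> simp [ip] at h

theorem bi_erh : ERH (fun p => ∀ e ∈ p.2, e.1 < p.1 ∧ e.2 < p.1 ∧ e.1 ≠ e.2) BI := by
  refine pl_erh.reduce (fun p => (6 * (p.1 * p.1), zs p)) (by unfold zs ix; fun_prop) ?_
  rintro ⟨n, E⟩ hb
  simp only [BI, zs, List.forall_mem_append, List.forall_mem_flatMap, List.forall_mem_map,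
    List.forall_mem_cons, List.mem_filter, List.mem_range, bne_iff_ne, and_imp] at hb ⊢
  refine ⟨⟨⟨fun i hi j hj => ?_, fun i hi j hj h => ?_⟩, fun e he => ?_⟩,
    fun ⟨X, L, h1, h2, h3⟩ => ?_, fun ⟨P, L, h1, ⟨h2, h3⟩, h4⟩ => ?_⟩
  · simp [ix_lt, hi, hj]; unfold ix; omega
  · simp [ix_lt, hi, hj]
    have : n * j ≠ n * i := fun e => h (Nat.eq_of_mul_eq_mul_left (by omega) e)
    unfold ix; omega
  · simp [ix_lt, hb e he]; unfold ix; omega
  · choose f hf using ex_fr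
    have s : ∀ Y : ℕ → V3, (∀ i < n, Y i ≠ 0) → (∀ i < n, ∀ j < n, i ≠ j → NP (Y i) (Y j)) →
        ∃ m : ℕ → ℕ → V3, ∀ i < n, ∀ j < n, ip (Y i) (m i j) = 1 ∧
          (j ≠ i → ip (Y j) (m i j) = 0) := fun Y a b => by
      choose! m hm using fun i (hi : i < n) j (hj : j < n) =>
        ex_sep (c := j ≠ i) (a i hi) fun h => b i hi j hj h.symm
      exact ⟨m, hm⟩
    obtain ⟨m, hm⟩ := s X (fun i hi => (h1 i hi).1) fun i hi j hj h => (h2 i hi j hj h).1
    obtain ⟨m', hm'⟩ := s L (fun i hi => (h1 i hi).2) fun i hi j hj h => (h2 i hi j hj h).2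
    let F : ℕ → ℕ → ℕ → V3 × V3 := fun t i j => [((f (X i)).1, (f (X i)).2.1),
      ((f (X i)).2.2.1, (f (X i)).2.2.2), (X i, m i j), ((f (L i)).2.1, (f (L i)).1),
      ((f (L i)).2.2.2, (f (L i)).2.2.1), (m' i j, L i)].getD t 0
    let G : ℕ → V3 × V3 := fun k => F (k % 6) (k / 6 / n) (k / 6 % n)
    have e : ∀ t i j, t < 6 → j < n → G (ix n t i j) = F t i j := fun t i j ht hj => by
      have a : ix n t i j / 6 = n * i + j := by unfold ix; omega
      have b : ix n t i j % 6 = t := by unfold ix; omega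
      simp only [G, a, b]
      rw [Nat.mul_add_div (by omega), Nat.mul_add_mod, Nat.div_eq_of_lt hj, Nat.mod_eq_of_lt hj]; rfl
    refine ⟨fun k => (G k).1, fun k => (G k).2, fun k hk => ?_, ⟨fun i hi j hj => ?_,
      fun i hi j hj h => ?_⟩, fun a ha => ?_⟩
    · have n0 : 0 < n := Nat.pos_of_ne_zero (by rintro rfl; simp at hk)
      have hi : k / 6 / n < n := Nat.div_lt_of_lt_mul (by omega)
      have hj : k / 6 % n < n := Nat.mod_lt _ n0
      have ht : k % 6 < 6 := Nat.mod_lt _ (by omega)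
      simp only [G]
      generalize k / 6 / n = i at *
      generalize k / 6 % n = j at *
      generalize k % 6 = t at *
      interval_cases t <;> simp [F, hf, hm i hi j hj, ip_comm _ (L i), hm' i hi j hj,
        ip_comm _ (f (L i)).1, ip_comm _ (f (L i)).2.2.1]
    · simp [e, hi, hj, F, hf, ip_comm _ (L i), ip_comm _ (f (L i)).1]
    · simp [e, hi, hj, F, (hm i hi j hj).2 h, ip_comm _ (L j), (hm' i hi j hj).2 h]
    · simp [e, hb a ha, F, h3 a ha]
  · have d := fun t i j ht hi hj => h1 _ (@ix_lt n t i j ht hi hj)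
    refine ⟨fun i => P (ix n 2 i i), fun i => L (ix n 5 i i), fun i hi =>
      ⟨(ne1 (d 2 i i (by omega) hi hi)).1, (ne1 (d 5 i i (by omega) hi hi)).2⟩,
      fun i hi j hj h => ?_, h4⟩
    obtain ⟨a1, a2, a3, a4, a5, a6, -⟩ := h2 i hi i hi
    obtain ⟨b1, b2, b3, b4, -⟩ := h2 i hi j hj
    obtain ⟨c1, c2, -⟩ := h3 i hi j hj h.symm
    refine ⟨sep (d 0 i i (by omega) hi hi) a5 (ne1 (d 1 i i (by omega) hi hi)).2 a1 a2 b1 b2
      (ne1 (d 2 i i (by omega) hi hi)).1 (d 2 i j (by omega) hi hj)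
      (ne1 (d 2 j j (by omega) hj hj)).1 c1, ?_⟩
    rw [ip_comm] at a3 a4 a6 b3 b4 c2
    exact sep ((ip_comm _ _).trans (d 3 i i (by omega) hi hi)) a6 (ne1 (d 4 i i (by omega) hi hi)).1
      a3 a4 b3 b4 (ne1 (d 5 i i (by omega) hi hi)).2 ((ip_comm _ _).trans (d 5 i j (by omega) hi hj))
      (ne1 (d 5 j j (by omega) hj hj)).2 c2

def tab (n : ℕ) (f : ℕ → ℕ → Bool) : List (List Bool) :=
  (List.range n).map fun i => (List.range n).map fun j => f i j

theorem tab_sq (n f) : Sq n (tab n f) := by simp [Sq, tab]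

theorem fits_tab {n f} {M : Matrix (Fin n) (Fin n) ℝ} :
    Fits (tab n f) M ↔ ∀ i j : Fin n, f i j = false → M i j = 0 := by
  simp [Fits, tab, List.getD_eq_getElem?_getD]

def vv (f : Fin 3 → ℝ) : V3 := (f 0, f 1, f 2)

def co (v : V3) : Fin 3 → ℝ := ![v.1, v.2.1, v.2.2]

theorem cmi_erh : ERH Inst Invertible := by
  refine bi_erh.reduce (fun p => (3 + p.1,
    tab (3 + p.1) fun i j => decide (i < 3) || decide (j < 3) ||
      !(i == j || p.2.any fun e => e.1 + 3 == i && e.2 + 3 == j),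
    tab (3 + p.1) fun i j => decide (i < 3) || decide (j < 3) || i == j))
    (by unfold tab; fun_prop) ?_
  rintro ⟨m, Z⟩ hb
  refine ⟨⟨tab_sq _ _, tab_sq _ _⟩, fun ⟨P, L, h1, h2⟩ => ?_, fun ⟨M, N, h1, h2, h3⟩ => ?_⟩
  · let A : Matrix (Fin m) (Fin 3) ℝ := fun k => co (P k)
    let B : Matrix (Fin 3) (Fin m) ℝ := fun c k => co (L k) c
    have ab : ∀ k l, (A * B) k l = ip (P k) (L l) := fun k l => by
      simp [A, B, Matrix.mul_apply, Fin.sum_univ_three, co, ip]
    refine ⟨Matrix.reindex finSumFinEquiv finSumFinEquiv (Matrix.fromBlocks 1 B A (A * B - 1)),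
      Matrix.reindex finSumFinEquiv finSumFinEquiv (Matrix.fromBlocks (1 - B * A) B A (-1)),
      fits_tab.2 fun i j h => ?_, fits_tab.2 fun i j h => ?_, ?_⟩
    · obtain ⟨i | i, rfl⟩ := finSumFinEquiv.surjective i
      · simp at h
      obtain ⟨j | j, rfl⟩ := finSumFinEquiv.surjective j
      · simp at h
      simp only [Matrix.reindex_apply, Matrix.submatrix_apply, Equiv.symm_apply_apply,
        Matrix.fromBlocks_apply₂₂, Matrix.sub_apply, ab]
      by_cases e : i = j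
      · subst e; simp [h1 i i.2]
      · simp [Fin.ext_iff.not.1 e] at h
        obtain ⟨a, b, h, k1, k2⟩ := h
        have := h2 _ h
        obtain rfl : a = i := by omega
        obtain rfl : b = j := by omega
        simp [e, this]
    · obtain ⟨i | i, rfl⟩ := finSumFinEquiv.surjective i
      · simp at h
      obtain ⟨j | j, rfl⟩ := finSumFinEquiv.surjective j
      · simp at h
      simp at h
      simp [Fin.ext_iff.not.2 h]
    · simp only [Matrix.reindex_apply, Matrix.submatrix_mul_equiv, Matrix.fromBlocks_multiply]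
      simp [Matrix.mul_sub, Matrix.sub_mul, Matrix.mul_assoc]
  · rw [fits_tab] at h1 h2
    dsimp only at M N h1 h2 h3 hb
    have key : ∀ k l : Fin m, (k = l ∨ (k.1, l.1) ∈ Z) →
        ip (vv fun c => M (k.natAdd 3) (c.castAdd m)) (vv fun c => N (c.castAdd m) (l.natAdd 3)) =
          if k = l then 1 else 0 := fun k l h => by
      have e := congrFun (congrFun h3 (k.natAdd 3)) (l.natAdd 3)
      rw [Matrix.mul_apply, Fin.sum_univ_add, Finset.sum_eq_zero (s := Finset.univ (α := Fin m)),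
        Fin.sum_univ_three] at e
      · simpa [vv, ip, Matrix.one_apply] using e
      intro c _
      by_cases k : c = l
      · subst k
        rw [h1, zero_mul]
        rcases h with rfl | h
        · simp
        · simp; exact fun _ => ⟨_, _, h, by omega, by omega⟩
      · rw [h2, mul_zero]
        simpa using Fin.ext_iff.not.1 k
    refine ⟨fun k => if h : k < m then vv fun c => M (Fin.natAdd 3 ⟨k, h⟩) (c.castAdd m) else 0,
      fun k => if h : k < m then vv fun c => N (c.castAdd m) (Fin.natAdd 3 ⟨k, h⟩) else 0,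
      fun k hk => ?_, fun e he => ?_⟩
    · simpa [show k < m from hk] using key ⟨k, hk⟩ ⟨k, hk⟩ (.inl rfl)
    · obtain ⟨a, b, c⟩ := hb e he
      simpa [a, b, c] using key ⟨_, a⟩ ⟨_, b⟩ (.inr he)

end Pool.Agent.H38.Cmi
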